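import Mathlib

/-! Kernel checks for a 60-vertex graph in the m-eternal domination game. -/

set_option autoImplicit false

namespace Pool.Agent.Lead.Med

set_option maxRecDepth 1000000

noncomputable def force {α : Type} (x : ℕ) (f : ℕ → α) : α :=
  Nat.rec (motive := fun _ => α) (f 0) (fun i _ => f (Nat.succ i)) x

theorem force_eq {α : Type} (x : ℕ) (f : ℕ → α) : force x f = f x := by cases x <;> rfl

noncomputable def allB (n : ℕ) (f : ℕ → Bool) : Bool :=
  Nat.rec (motive := fun _ => Bool) true (fun i ih => Bool.rec false ih (f i)) n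

theorem allB_sound {n : ℕ} {f : ℕ → Bool} (h : allB n f = true) : ∀ i < n, f i = true := by
  induction n with
  | zero => simp
  | succ n ih =>
    have e : allB (n + 1) f = Bool.rec false (allB n f) (f n) := rfl
    rw [e] at h
    intro i hi
    cases hf : f n with
    | false => rw [hf] at h; exact absurd h (by simp)
    | true =>
      rw [hf] at h
      rcases Nat.lt_succ_iff_lt_or_eq.1 hi with h1 | rfl
      · exact ih h i h1
      · exact hf

noncomputable def an (a b : Bool) : Bool := Bool.rec false b a
noncomputable def orr (a b : Bool) : Bool := Bool.rec b true a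
noncomputable def im (a b : Bool) : Bool := Bool.rec true b a

theorem an_iff {a b : Bool} : an a b = true ↔ a = true ∧ b = true := by cases a <;> simp [an]
theorem orr_iff {a b : Bool} : orr a b = true ↔ a = true ∨ b = true := by cases a <;> simp [orr]
theorem im_iff {a b : Bool} : im a b = true ↔ (a = true → b = true) := by cases a <;> simp [im]

def AD : ℕ := 0x802007ffffbfffe402007ffffc0000202007ffffc000010200000003ffff08200000003ffff040005b6db5b6db020006db6d9b6db0100036db6edb6d008006db6dadb6d0040036db6f6db6f82005b6db76db60010b5b6db6db6d000a36db6db6db60005536db6db6db000a56db6db6db60005636db6db6db0010e5b6db6db6d0007c80000000000019a8000000000001e1800000000000007ffffffffffe6ba8e000040000e3cf0f000000000e5758b800000000e6ba89c00000000e3cf08e00000000e57588700000000e6ba88380000000e3cf081c0000000e575880e0000000e6ba88070000000e3cf08038000000e5758801c000000e6ba8800e000000e3cf08007000000e57588003800000e6ba88001c00000e3cf08000e00000e57588000700000e6ba88000380000e3cf080001c000065758c0000c000099fa880000300019e6f080000380009f958800001c00099fa8800000e0009e6f080000070009f958800000380099fa88000001c009e6f08000000e009f958800000070099fa880000003809e6f080000001c09f95880000000e099fa880000000709e6f080000000389f958800000001c99fa8800000000e9e6f080000000071f9588000020003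
def OKT : ℕ := 0x24812244800000000000000000000000000000000000040248c31230c5110ee773b9dcee773b9dcee773b9dcee
def DA : ℕ := 0x8c6318863108620000000000000000000000000000000000000000000000000000000000000
def DB : ℕ := 0x84210d021a5020000000000000000000000000000000000000000000000000000000000000000000000000000000000000000000000000000000000000000000000000000000000000000

/-- closed neighbourhood relation -/
noncomputable def nb (i j : ℕ) : Bool :=
  Nat.beq (Nat.mod (Nat.shiftRight AD (Nat.add (Nat.mul 60 i) j)) 2) 1

noncomputable def row (i : ℕ) : ℕ := Nat.mod (Nat.shiftRight AD (Nat.mul 60 i)) 1152921504606846976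

noncomputable def ok (y k : ℕ) : Bool :=
  Nat.beq (Nat.mod (Nat.shiftRight OKT (Nat.add (Nat.mul 3 y) (Nat.mod k 3))) 2) 1

noncomputable def pA (y k : ℕ) : ℕ :=
  Nat.mod (Nat.add k (Nat.mod (Nat.shiftRight DA (Nat.mul 5 y)) 32)) 18

noncomputable def pB (y k : ℕ) : ℕ :=
  Nat.add 18 (Nat.mod (Nat.add k (Nat.mod (Nat.shiftRight DB (Nat.mul 5 y)) 32)) 21)

noncomputable def m4 (s0 s1 s2 s3 t0 t1 t2 t3 : ℕ) : Bool :=
  an (nb s0 t0) (an (nb s1 t1) (an (nb s2 t2) (nb s3 t3)))

noncomputable def pat (x A B a A' B' : ℕ) : Bool :=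
  orr (m4 x 39 A B 39 a A' B') <| orr (m4 x 39 A B a 39 A' B') <| orr (m4 x 39 A B 39 A' a B') <|
  orr (m4 x 39 A B A' a 39 B') <| orr (m4 x 39 A B A' 39 a B') <| orr (m4 x 39 A B 39 B' A' a) <|
  orr (m4 x 39 A B B' a A' 39) <| orr (m4 x 39 A B B' 39 A' a) <| orr (m4 x 39 A B B' A' a 39)
  (m4 x 39 A B A' B' 39 a)

noncomputable def resp (x A B a z k : ℕ) : Bool :=
  an (ok z k) (force (pA z k) fun A' => force (pB z k) fun B' => pat x A B a A' B')

noncomputable def resp3 (x A B a z k : ℕ) : Bool :=
  orr (resp x A B a z (Nat.add k 1)) <| orr (resp x A B a z (Nat.add k 2))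
    (resp x A B a z (Nat.add k 3))

noncomputable def chk (y : ℕ) : Bool :=
  force (Nat.mod y 60) fun x => allB 123 fun k => im (ok y (Nat.add k 2)) <|
    force (pA y (Nat.add k 2)) fun A => force (pB y (Nat.add k 2)) fun B => allB 60 fun a =>
      orr (Nat.beq a x) <| orr (Nat.beq a 39) <| orr (Nat.beq a A) <| orr (Nat.beq a B) <|
      orr (resp3 x A B a a k) (resp3 x A B a (Nat.add a 60) k)

noncomputable def chkR (lo n : ℕ) : Bool := allB n fun i => force (Nat.add lo i) chk

noncomputable def good (i α β : ℕ) : Bool :=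
  an (Nat.ble α 17) <| an (Nat.ble 18 β) <| an (Nat.ble β 38) <| an (Nat.beq (Nat.mod α 3) i) <|
    an (Nat.beq (Nat.mod β 3) i) (orr (Nat.ble 1 α) (Nat.ble 19 β))

noncomputable def cls : Bool :=
  allB 3 fun i => allB 60 fun x1 => im (nb x1 (Nat.add 40 (Nat.mod (Nat.add i 1) 3))) <|
    allB 60 fun x2 => force (Nat.lor (Nat.lor (row (Nat.add 40 i)) (row x1)) (row x2)) fun r =>
      allB 60 fun x3 => im (Nat.beq (Nat.lor r (row x3)) 1152921504606846975) <|
        an (Nat.beq x1 39) (orr (good i x2 x3) (good i x3 x2))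

theorem cls_ok : cls = true := by decide +kernel

theorem basic : (allB 60 fun i => an (nb i i) <| allB 60 fun j => im (nb i j) (nb j i)) = true := by
  decide +kernel

theorem dist : (allB 120 fun y => allB 126 fun k => im (ok y k) <|
    an (Nat.beq (Nat.mod y 60) 39).not <| an (Nat.beq (Nat.mod y 60) (pA y k)).not
      (Nat.beq (Nat.mod y 60) (pB y k)).not) = true := by
  decide +kernel

theorem trans1 : (allB 3 fun i => allB 60 fun v => allB 39 fun w =>
    an (nb (Nat.add 40 i) w).not <|
    an (im (nb v (Nat.add 40 (Nat.mod (Nat.add i 1) 3)))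
      (orr (Nat.beq v 39) (an (Nat.ble 40 v) (Nat.beq v (Nat.add 40 i)).not))) <|
    im (nb v w) <| im (Nat.beq (Nat.mod v 3) i) <|
      im (Nat.beq (Nat.mod w 3) (Nat.mod (Nat.add i 1) 3)) <|
      an (im (Nat.ble v 17) (Nat.beq w (Nat.mod (Nat.add v 1) 18)))
        (im (an (Nat.ble 18 v) (Nat.ble v 38))
          (Nat.beq w (Nat.add 18 (Nat.mod (Nat.add v 4) 21))))) = true := by
  decide +kernel

end Pool.Agent.Lead.Med
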