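import Pool.Agent.Lead.Med.Core

namespace Pool.Agent.Lead.Med

set_option maxRecDepth 1000000

theorem c0 : chkR 0 2 = true := by decide +kernel
theorem c2 : chkR 2 2 = true := by decide +kernel
theorem c4 : chkR 4 2 = true := by decide +kernel
theorem c6 : chkR 6 2 = true := by decide +kernel
theorem c8 : chkR 8 2 = true := by decide +kernel

end Pool.Agent.Lead.Med
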