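import Pool.Agent.Lead.Med.Core

namespace Pool.Agent.Lead.Med

set_option maxRecDepth 1000000

theorem c10 : chkR 10 2 = true := by decide +kernel
theorem c12 : chkR 12 2 = true := by decide +kernel
theorem c14 : chkR 14 2 = true := by decide +kernel
theorem c16 : chkR 16 2 = true := by decide +kernel
theorem c18 : chkR 18 2 = true := by decide +kernel

end Pool.Agent.Lead.Med
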