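import Pool.Agent.Lead.Med.Core

namespace Pool.Agent.Lead.Med

set_option maxRecDepth 1000000

theorem c20 : chkR 20 2 = true := by decide +kernel
theorem c22 : chkR 22 2 = true := by decide +kernel
theorem c24 : chkR 24 2 = true := by decide +kernel
theorem c26 : chkR 26 2 = true := by decide +kernel
theorem c28 : chkR 28 2 = true := by decide +kernel

end Pool.Agent.Lead.Med
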