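import Pool.Agent.Lead.Med.Core

namespace Pool.Agent.Lead.Med

set_option maxRecDepth 1000000

theorem c30 : chkR 30 2 = true := by decide +kernel
theorem c32 : chkR 32 2 = true := by decide +kernel
theorem c34 : chkR 34 2 = true := by decide +kernel
theorem c36 : chkR 36 2 = true := by decide +kernel
theorem c38 : chkR 38 2 = true := by decide +kernel

end Pool.Agent.Lead.Med
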