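import Pool.Agent.Lead.Med.Core

namespace Pool.Agent.Lead.Med

set_option maxRecDepth 1000000

theorem c40 : chkR 40 10 = true := by decide +kernel
theorem c50 : chkR 50 70 = true := by decide +kernel

end Pool.Agent.Lead.Med
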